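import Pool.Agent.Helper46.C2.St

/-!
# Project C2, module XA: computation in a group
-/

set_option autoImplicit false

namespace Pool.Agent.Helper81.C2

open Pool.Agent.Helper46.C2

/-- the relations D1 and A1 -/
theorem XA_core {G : Type} [Group G] (X Z z : G) (hX : z * X * z⁻¹ = X ^ 4)
    (hZ : z * Z * z⁻¹ = Z ^ 4) (P1 : (Z⁻¹ * X) ^ 4 = X ^ 4 * (Z ^ 4)⁻¹)
    (H3 : (Z⁻¹ * X) ^ 2 = z * (Z⁻¹ * X ^ 2) * z) :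
    z * z = X ^ (-8 : ℤ) * Z ^ 3 * X * Z⁻¹ * X ∧
    z * z = X ^ (-2 : ℤ) * Z ^ (-2 : ℤ) * X ^ (-10 : ℤ) * Z := by
  constructor
  · have h : (Z⁻¹ * X) ^ 2 = (Z ^ 4)⁻¹ * (X ^ 4) ^ 2 * (z * z) := by
      rw [H3]
      calc z * (Z⁻¹ * X ^ 2) * z = (z * Z * z⁻¹)⁻¹ * (z * X * z⁻¹) ^ 2 * (z * z) := by
            rw [conj_pow]; group
        _ = (Z ^ 4)⁻¹ * (X ^ 4) ^ 2 * (z * z) := by rw [hZ, hX]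
    calc z * z = X ^ (-8 : ℤ) * Z ^ 4 * ((Z ^ 4)⁻¹ * (X ^ 4) ^ 2 * (z * z)) := by group
      _ = X ^ (-8 : ℤ) * Z ^ 4 * (Z⁻¹ * X) ^ 2 := by rw [h]
      _ = X ^ (-8 : ℤ) * Z ^ 3 * X * Z⁻¹ * X := by rw [pow_two]; group
  · have hu : z * X * (Z⁻¹ * X) * (z * X)⁻¹ = (Z⁻¹ * X) ^ 4 := by
      rw [P1]
      calc z * X * (Z⁻¹ * X) * (z * X)⁻¹ = (z * X * z⁻¹) * (z * Z * z⁻¹)⁻¹ := by group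
        _ = X ^ 4 * (Z ^ 4)⁻¹ := by rw [hX, hZ]
    have e1 : z * X * (Z⁻¹ * X) ^ 2 * (z * X)⁻¹ = (Z⁻¹ * X) ^ 8 := by
      calc z * X * (Z⁻¹ * X) ^ 2 * (z * X)⁻¹ = (z * X * (Z⁻¹ * X) * (z * X)⁻¹) ^ 2 := by
            rw [pow_two, pow_two]; group
        _ = ((Z⁻¹ * X) ^ 4) ^ 2 := by rw [hu]
        _ = (Z⁻¹ * X) ^ 8 := by rw [← pow_mul]
    have e2 : z * X * (z * (Z⁻¹ * X ^ 2) * z) * (z * X)⁻¹ =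
        (z * X * (Z⁻¹ * X) * (z * X)⁻¹) * (z * (Z⁻¹ * X ^ 2) * z) * (z * (Z⁻¹ * X ^ 2) * z) := by
      rw [← H3, e1, hu, ← pow_add, ← pow_add]
    calc z * z = (Z⁻¹ * (Z⁻¹ * X ^ 2))⁻¹ * (z * X)⁻¹ *
          ((z * X * (Z⁻¹ * X) * (z * X)⁻¹) * (z * (Z⁻¹ * X ^ 2) * z) *
            (z * (Z⁻¹ * X ^ 2) * z)) * ((Z⁻¹ * X ^ 2) * z)⁻¹ := by group
      _ = (Z⁻¹ * (Z⁻¹ * X ^ 2))⁻¹ * (z * X)⁻¹ *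
          (z * X * (z * (Z⁻¹ * X ^ 2) * z) * (z * X)⁻¹) * ((Z⁻¹ * X ^ 2) * z)⁻¹ := by rw [e2]
      _ = (Z⁻¹ * (Z⁻¹ * X ^ 2))⁻¹ * ((z * Z * z⁻¹)⁻¹ * (z * X * z⁻¹) ^ 2 *
          z * (z * X * z⁻¹)⁻¹ * z⁻¹) * (Z⁻¹ * X ^ 2)⁻¹ := by rw [conj_pow]; group
      _ = (Z⁻¹ * (Z⁻¹ * X ^ 2))⁻¹ * ((z * Z * z⁻¹)⁻¹ * (z * X * z⁻¹) ^ 2 *
          z * (X ^ 4)⁻¹ * z⁻¹) * (Z⁻¹ * X ^ 2)⁻¹ := by rw [hX]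
      _ = (Z⁻¹ * (Z⁻¹ * X ^ 2))⁻¹ * ((z * Z * z⁻¹)⁻¹ * (z * X * z⁻¹) ^ 2 *
          ((z * X * z⁻¹) ^ 4)⁻¹) * (Z⁻¹ * X ^ 2)⁻¹ := by
            rw [conj_pow (i := 4)]; group
      _ = (Z⁻¹ * (Z⁻¹ * X ^ 2))⁻¹ * ((Z ^ 4)⁻¹ * (X ^ 4) ^ 2 *
          ((X ^ 4) ^ 4)⁻¹) * (Z⁻¹ * X ^ 2)⁻¹ := by rw [hX, hZ]
      _ = X ^ (-2 : ℤ) * Z ^ (-2 : ℤ) * X ^ (-10 : ℤ) * Z := by group

theorem hXA : StXA := by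
  intro G _ x v g hx hv P1 H3
  -- conjugation by powers of g
  have hzx : (g * g) * x * (g * g)⁻¹ = x ^ 4 := by
    calc (g * g) * x * (g * g)⁻¹ = g * (g * x * g⁻¹) * g⁻¹ := by group
      _ = g * v ^ 2 * g⁻¹ := by rw [hx]
      _ = (g * v * g⁻¹) ^ 2 := by rw [pow_two, pow_two]; group
      _ = (x ^ 2) ^ 2 := by rw [hv]
      _ = x ^ 4 := by rw [← pow_mul]
  have hzv : (g * g) * v * (g * g)⁻¹ = v ^ 4 := by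
    calc (g * g) * v * (g * g)⁻¹ = g * (g * v * g⁻¹) * g⁻¹ := by group
      _ = g * x ^ 2 * g⁻¹ := by rw [hv]
      _ = (g * x * g⁻¹) ^ 2 := by rw [pow_two, pow_two]; group
      _ = (v ^ 2) ^ 2 := by rw [hx]
      _ = v ^ 4 := by rw [← pow_mul]
  have hX : (g * g) * x ^ 8 * (g * g)⁻¹ = (x ^ 8) ^ 4 := by
    rw [← conj_pow, hzx, ← pow_mul, ← pow_mul]
  have hZ : (g * g) * v ^ 8 * (g * g)⁻¹ = (v ^ 8) ^ 4 := by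
    rw [← conj_pow, hzv, ← pow_mul, ← pow_mul]
  obtain ⟨D1, A1⟩ := XA_core (x ^ 8) (v ^ 8) (g * g) hX hZ P1 H3
  -- conjugation by the fourth power
  have hζx : (g * g) * (g * g) * x * ((g * g) * (g * g))⁻¹ = x ^ 16 := by
    calc (g * g) * (g * g) * x * ((g * g) * (g * g))⁻¹
        = (g * g) * ((g * g) * x * (g * g)⁻¹) * (g * g)⁻¹ := by group
      _ = (g * g) * x ^ 4 * (g * g)⁻¹ := by rw [hzx]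
      _ = ((g * g) * x * (g * g)⁻¹) ^ 4 := by rw [conj_pow]
      _ = (x ^ 4) ^ 4 := by rw [hzx]
      _ = x ^ 16 := by rw [← pow_mul]
  have hζv : (g * g) * (g * g) * v * ((g * g) * (g * g))⁻¹ = v ^ 16 := by
    calc (g * g) * (g * g) * v * ((g * g) * (g * g))⁻¹
        = (g * g) * ((g * g) * v * (g * g)⁻¹) * (g * g)⁻¹ := by group
      _ = (g * g) * v ^ 4 * (g * g)⁻¹ := by rw [hzv]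
      _ = ((g * g) * v * (g * g)⁻¹) ^ 4 := by rw [conj_pow]
      _ = (v ^ 4) ^ 4 := by rw [hzv]
      _ = v ^ 16 := by rw [← pow_mul]
  set ζ : G := (g * g) * (g * g) with hζ
  -- D2
  have D2 : ζ = x ^ 48 * v ^ 16 * (x ^ 16)⁻¹ * v ^ 8 := by
    have c1 : ζ = (g * x * g⁻¹) ^ (-64 : ℤ) * (g * v * g⁻¹) ^ 24 * (g * x * g⁻¹) ^ 8 *
        ((g * v * g⁻¹) ^ 8)⁻¹ * (g * x * g⁻¹) ^ 8 := by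
      calc ζ = g * ζ * g⁻¹ := by rw [hζ]; group
        _ = g * ((x ^ 8) ^ (-8 : ℤ) * (v ^ 8) ^ 3 * x ^ 8 * (v ^ 8)⁻¹ * x ^ 8) * g⁻¹ := by
          rw [← D1]
        _ = (g * x ^ (-64 : ℤ) * g⁻¹) * (g * v ^ 24 * g⁻¹) * (g * x ^ 8 * g⁻¹) *
            (g * v ^ 8 * g⁻¹)⁻¹ * (g * x ^ 8 * g⁻¹) := by group
        _ = _ := by rw [← conj_pow, ← conj_pow, ← conj_pow, ← conj_zpow]
    rw [hx, hv] at c1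
    have c2 : v ^ 128 * ζ = ζ * v ^ 8 := by
      have : v ^ 128 = ζ * v ^ 8 * ζ⁻¹ := by
        rw [← conj_pow, hζv, ← pow_mul]
      rw [this]; group
    calc ζ = v ^ 128 * ζ * (v ^ 8)⁻¹ := by rw [c2]; group
      _ = v ^ 128 * ((v ^ 2) ^ (-64 : ℤ) * (x ^ 2) ^ 24 * (v ^ 2) ^ 8 * ((x ^ 2) ^ 8)⁻¹ *
            (v ^ 2) ^ 8) * (v ^ 8)⁻¹ := by rw [← c1]
      _ = x ^ 48 * v ^ 16 * (x ^ 16)⁻¹ * v ^ 8 := by group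
  -- c
  have C : x ^ 64 * v ^ 16 * x ^ 64 = (v ^ 16)⁻¹ := by
    have c1 : x ^ 48 * v ^ 16 * (x ^ 16)⁻¹ * v ^ 8 =
        (x ^ 8) ^ (-2 : ℤ) * (v ^ 8) ^ (-2 : ℤ) * (x ^ 8) ^ (-10 : ℤ) * v ^ 8 := by
      rw [← D2, ← A1]
    calc x ^ 64 * v ^ 16 * x ^ 64 =
          x ^ 16 * (x ^ 48 * v ^ 16 * (x ^ 16)⁻¹ * v ^ 8) * (v ^ 8)⁻¹ * x ^ 80 := by group
      _ = x ^ 16 * ((x ^ 8) ^ (-2 : ℤ) * (v ^ 8) ^ (-2 : ℤ) * (x ^ 8) ^ (-10 : ℤ) * v ^ 8) *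
          (v ^ 8)⁻¹ * x ^ 80 := by rw [c1]
      _ = (v ^ 16)⁻¹ := by group
  -- b
  have B : v ^ 8 * x ^ 2 * v ^ 8 = (x ^ 2)⁻¹ := by
    have c1 : (g * x * g⁻¹) ^ 64 * (g * v * g⁻¹) ^ 16 * (g * x * g⁻¹) ^ 64 =
        ((g * v * g⁻¹) ^ 16)⁻¹ := by
      rw [conj_pow, conj_pow]
      calc g * x ^ 64 * g⁻¹ * (g * v ^ 16 * g⁻¹) * (g * x ^ 64 * g⁻¹) =
            g * (x ^ 64 * v ^ 16 * x ^ 64) * g⁻¹ := by group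
        _ = g * (v ^ 16)⁻¹ * g⁻¹ := by rw [C]
        _ = (g * v ^ 16 * g⁻¹)⁻¹ := by group
    rw [hx, hv] at c1
    have c2 : v ^ 128 = ζ * v ^ 8 * ζ⁻¹ := by
      rw [← conj_pow, hζv, ← pow_mul]
    have c3 : x ^ 32 = ζ * x ^ 2 * ζ⁻¹ := by
      rw [← conj_pow, hζx, ← pow_mul]
    have c4 : v ^ 128 * x ^ 32 * v ^ 128 = (x ^ 32)⁻¹ := by
      have d1 : (v ^ 2) ^ 64 = v ^ 128 := by rw [← pow_mul]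
      have d2 : (x ^ 2) ^ 16 = x ^ 32 := by rw [← pow_mul]
      rw [d1, d2] at c1
      exact c1
    rw [c2, c3] at c4
    calc v ^ 8 * x ^ 2 * v ^ 8 =
          ζ⁻¹ * (ζ * v ^ 8 * ζ⁻¹ * (ζ * x ^ 2 * ζ⁻¹) * (ζ * v ^ 8 * ζ⁻¹)) * ζ := by group
      _ = ζ⁻¹ * (ζ * x ^ 2 * ζ⁻¹)⁻¹ * ζ := by rw [c4]
      _ = (x ^ 2)⁻¹ := by group
  -- a
  have A : v ^ 8 * x⁻¹ * v ^ 8 = x ^ 16 * v ^ 8 * x ^ 8 := by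
    -- x^64 ζ = ζ x^4, x^16 ζ = ζ x
    have r4 : x ^ 64 * ζ = ζ * x ^ 4 := by
      have : x ^ 64 = ζ * x ^ 4 * ζ⁻¹ := by
        rw [← conj_pow, hζx, ← pow_mul]
      rw [this]; group
    have r1 : (x ^ 16)⁻¹ * ζ = ζ * x⁻¹ := by
      rw [← hζx]; group
    have s1 : v ^ 16 * (v ^ 8 * x ^ 8 * (v ^ 8)⁻¹) = ζ * (x ^ 4)⁻¹ := by
      calc v ^ 16 * (v ^ 8 * x ^ 8 * (v ^ 8)⁻¹) =
            x ^ 64 * ((x ^ 8) ^ (-8 : ℤ) * (v ^ 8) ^ 3 * x ^ 8 * (v ^ 8)⁻¹ * x ^ 8) *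
              (x ^ 8)⁻¹ := by group
        _ = x ^ 64 * ζ * (x ^ 8)⁻¹ := by rw [← D1]
        _ = ζ * (x ^ 4)⁻¹ := by rw [r4]; group
    have s2 : v ^ 16 = (x ^ 64)⁻¹ * ζ * (v ^ 8 * x ^ 8 * (v ^ 8)⁻¹)⁻¹ := by
      have r4' : (x ^ 64)⁻¹ * ζ = ζ * (x ^ 4)⁻¹ := by
        calc (x ^ 64)⁻¹ * ζ = (x ^ 64)⁻¹ * (ζ * x ^ 4) * (x ^ 4)⁻¹ := by group
          _ = (x ^ 64)⁻¹ * (x ^ 64 * ζ) * (x ^ 4)⁻¹ := by rw [r4]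
          _ = ζ * (x ^ 4)⁻¹ := by group
      rw [r4', ← s1]
      group
    have s3 : ζ = ζ * x⁻¹ * (v ^ 8 * x ^ 8 * (v ^ 8)⁻¹)⁻¹ * (x ^ 16)⁻¹ * v ^ 8 := by
      calc ζ = x ^ 48 * v ^ 16 * (x ^ 16)⁻¹ * v ^ 8 := D2
        _ = x ^ 48 * ((x ^ 64)⁻¹ * ζ * (v ^ 8 * x ^ 8 * (v ^ 8)⁻¹)⁻¹) * (x ^ 16)⁻¹ * v ^ 8 := by
          rw [← s2]
        _ = ((x ^ 16)⁻¹ * ζ) * (v ^ 8 * x ^ 8 * (v ^ 8)⁻¹)⁻¹ * (x ^ 16)⁻¹ * v ^ 8 := by group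
        _ = _ := by rw [r1]
    have s4 : (1 : G) = x⁻¹ * (v ^ 8 * x ^ 8 * (v ^ 8)⁻¹)⁻¹ * (x ^ 16)⁻¹ * v ^ 8 := by
      apply mul_left_cancel (a := ζ)
      rw [mul_one]
      calc ζ = _ := s3
        _ = ζ * (x⁻¹ * (v ^ 8 * x ^ 8 * (v ^ 8)⁻¹)⁻¹ * (x ^ 16)⁻¹ * v ^ 8) := by
          simp only [mul_assoc]
    calc v ^ 8 * x⁻¹ * v ^ 8 =
          x ^ 16 * (v ^ 8 * x ^ 8 * (v ^ 8)⁻¹) * x *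
            (x⁻¹ * (v ^ 8 * x ^ 8 * (v ^ 8)⁻¹)⁻¹ * (x ^ 16)⁻¹ * v ^ 8) * x⁻¹ * v ^ 8 := by group
      _ = x ^ 16 * (v ^ 8 * x ^ 8 * (v ^ 8)⁻¹) * x * 1 * x⁻¹ * v ^ 8 := by rw [← s4]
      _ = x ^ 16 * v ^ 8 * x ^ 8 := by group
  refine ⟨A, B, C, ?_⟩
  calc g ^ 4 = ζ := by
        rw [hζ, ← mul_assoc]
        rw [pow_succ, pow_succ, pow_two]
    _ = (x ^ 8) ^ (-8 : ℤ) * (v ^ 8) ^ 3 * x ^ 8 * (v ^ 8)⁻¹ * x ^ 8 := D1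
    _ = (x ^ 64)⁻¹ * v ^ 24 * x ^ 8 * (v ^ 8)⁻¹ * x ^ 8 := by group

end Pool.Agent.Helper81.C2
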